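import Pool.Agent.Helper38.SD.Goals

/-!
Project SD (MP_fc6b1e_nt), packet M_TR (helper77): transversals through two elements.
-/

set_option autoImplicit false

open Module

namespace Pool.Agent.Helper77.SD

open Pool.Agent.Helper38.SD

section

variable {k V I : Type} [Field k] [AddCommGroup V] [Module k V] [FiniteDimensional k V]

/-- the rank of a set of indices -/
noncomputable def rk (k : Type) {V I : Type} [Field k] [AddCommGroup V] [Module k V] (l : I → V)
    (T : Finset I) : ℕ := finrank k (Submodule.span k (l '' (T : Set I)))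

theorem rk_sub [DecidableEq I] (l : I → V) (A B : Finset I) :
    rk k l (A ∪ B) + rk k l (A ∩ B) ≤ rk k l A + rk k l B := by
  have h1 : Submodule.span k (l '' ((A ∪ B : Finset I) : Set I)) =
      Submodule.span k (l '' (A : Set I)) ⊔ Submodule.span k (l '' (B : Set I)) := by
    rw [Finset.coe_union, Set.image_union, Submodule.span_union]
  have h2 : Submodule.span k (l '' ((A ∩ B : Finset I) : Set I)) ≤
      Submodule.span k (l '' (A : Set I)) ⊓ Submodule.span k (l '' (B : Set I)) := by
    refine le_inf (Submodule.span_mono (Set.image_mono ?_)) (Submodule.span_mono (Set.image_mono ?_))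
    · exact Finset.coe_subset.mpr Finset.inter_subset_left
    · exact Finset.coe_subset.mpr Finset.inter_subset_right
  have h3 := Submodule.finrank_mono h2
  have h4 := Submodule.finrank_sup_add_finrank_inf_eq (Submodule.span k (l '' (A : Set I)))
    (Submodule.span k (l '' (B : Set I)))
  rw [rk, rk, rk, rk, h1]
  omega

theorem tight [Fintype I] [DecidableEq I] {l : I → V} {d : ℕ} (hI : Fintype.card I = 2 * d)
    (h1 : ∀ T : Finset I, T.card ≤ 2 * rk k l T)
    (h2 : ∀ T : Finset I, 0 < T.card → T.card < 2 * d → T.card ≠ d → T.card < 2 * rk k l T)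
    {A B : Finset I} (hA : A.card = d) (hA' : 2 * rk k l A = d) (hB : B.card = d)
    (hB' : 2 * rk k l B = d) : A = B ∨ B = Aᶜ := by
  by_cases hAB : A = B
  · exact Or.inl hAB
  right
  have s1 := rk_sub (k := k) l A B
  have s2 := Finset.card_union_add_card_inter A B
  have s3 := h1 (A ∪ B)
  have s4 := h1 (A ∩ B)
  have s5 : d < (A ∪ B).card := by
    have t1 : A ⊆ A ∪ B := Finset.subset_union_left
    rcases t1.eq_or_ssubset with t2 | t2
    · exfalso
      apply hAB
      have t3 : B ⊆ A := by
        rw [t2]
        exact Finset.subset_union_right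
      exact (Finset.eq_of_subset_of_card_le t3 (by omega)).symm
    · rw [← hA]
      exact Finset.card_lt_card t2
  have s6 : (A ∪ B).card = 2 * d := by
    by_contra hne
    have t1 : (A ∪ B).card ≤ 2 * d := by
      rw [← hI]
      exact Finset.card_le_univ _
    have t2 := h2 (A ∪ B) (by omega) (by omega) (by omega)
    omega
  have s7 : A ∪ B = Finset.univ := by
    rw [← Finset.card_eq_iff_eq_univ, s6, hI]
  have s8 : Aᶜ ⊆ B := by
    intro i hi
    have t1 : i ∈ A ∪ B := by
      rw [s7]
      exact Finset.mem_univ _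
    rcases Finset.mem_union.mp t1 with t2 | t2
    · exact absurd t2 (Finset.mem_compl.mp hi)
    · exact t2
  exact (Finset.eq_of_subset_of_card_le s8 (by rw [Finset.card_compl]; omega)).symm

end

theorem exists_P0 {k V I : Type} [Field k] [AddCommGroup V] [Module k V] [FiniteDimensional k V]
    [Fintype I] [DecidableEq I] {c : I → I} {l : I → V} {d : ℕ} (hc : ∀ i, c (c i) = i)
    (hI : Fintype.card I = 2 * d) (h1 : ∀ T : Finset I, T.card ≤ 2 * rk k l T)
    (h2 : ∀ T : Finset I, 0 < T.card → T.card < 2 * d → T.card ≠ d → T.card < 2 * rk k l T) :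
    ∃ P₀ : Set I, (Odd d → P₀ = ∅) ∧ ∀ T : Finset I, T.card = d → 2 * rk k l T = d →
      {i | i ∈ T ∧ c i ∉ T} = P₀ ∨ {i | i ∈ T ∧ c i ∉ T} = c '' P₀ := by
  classical
  by_cases h : ∃ A : Finset I, A.card = d ∧ 2 * rk k l A = d
  · obtain ⟨A, hA, hA'⟩ := h
    refine ⟨{i | i ∈ A ∧ c i ∉ A}, ?_, ?_⟩
    · intro hd
      exfalso
      rw [← Nat.not_even_iff_odd] at hd
      exact hd ⟨rk k l A, by omega⟩
    · intro T hT hT'
      rcases tight hI h1 h2 hA hA' hT hT' with h3 | h3
      · left
        rw [h3]
      · right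
        rw [h3]
        ext i
        simp only [Finset.mem_compl, Set.mem_setOf_eq, Set.mem_image, not_not]
        constructor
        · rintro ⟨h4, h5⟩
          exact ⟨c i, ⟨h5, by rwa [hc]⟩, hc i⟩
        · rintro ⟨j, ⟨h4, h5⟩, rfl⟩
          exact ⟨h5, by rwa [hc]⟩
  · refine ⟨∅, fun _ => rfl, ?_⟩
    intro T hT hT'
    exact absurd ⟨T, hT, hT'⟩ h

/-- **M_TR** -/
theorem m_tr (h : M_RADO) : M_TR := by
  intro k V I _ _ _ _ _ _ c l d hc hc' hI h1 h2
  classical
  obtain ⟨P₀, hP₀, hP₀'⟩ := exists_P0 hc hI h1 h2
  refine ⟨P₀, hP₀, ?_⟩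
  intro P hPc hP hne hne'
  -- representatives
  let e := Fintype.equivFin I
  have ene : ∀ i, e i ≠ e (c i) := fun i hi => hc' i (e.injective hi).symm
  let J : Type := {i : I // e i < e (c i)}
  obtain ⟨rep, hrep1, hrep2, hrep3⟩ : ∃ rep : I → J, (∀ j : J, rep j.1 = j) ∧
      (∀ i, rep (c i) = rep i) ∧ ∀ i, (rep i).1 = i ∨ (rep i).1 = c i := by
    have key : ∀ i, ¬ e i < e (c i) → e (c i) < e (c (c i)) := by
      intro i hi
      rw [hc]
      exact lt_of_le_of_ne (not_lt.mp hi) (ene i).symm
    let rep : I → J := fun i => if hi : e i < e (c i) then ⟨i, hi⟩ else ⟨c i, key i hi⟩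
    have hpos : ∀ i (hi : e i < e (c i)), rep i = ⟨i, hi⟩ := fun i hi => dif_pos hi
    have hneg : ∀ i (hi : ¬ e i < e (c i)), rep i = ⟨c i, key i hi⟩ := fun i hi => dif_neg hi
    refine ⟨rep, ?_, ?_, ?_⟩
    · intro j
      exact hpos j.1 j.2
    · intro i
      by_cases hi : e i < e (c i)
      · have hi2 : ¬ e (c i) < e (c (c i)) := by
          rw [hc]
          exact not_lt.mpr hi.le
        rw [hpos i hi, hneg (c i) hi2]
        exact Subtype.ext (hc i)
      · rw [hneg i hi, hpos (c i) (key i hi)]
    · intro i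
      by_cases hi : e i < e (c i)
      · rw [hpos i hi]
        exact Or.inl rfl
      · rw [hneg i hi]
        exact Or.inr rfl
  have hrepE : ∀ (j : J) (i : I), i ∈ ({j.1, c j.1} : Finset I) ↔ rep i = j := by
    intro j i
    rw [Finset.mem_insert, Finset.mem_singleton]
    constructor
    · rintro (rfl | rfl)
      · exact hrep1 j
      · rw [hrep2, hrep1]
    · rintro rfl
      rcases hrep3 i with h3 | h3
      · left
        exact h3.symm
      · right
        rw [h3, hc]
  let U : Finset I := Finset.univ.filter fun i => c i ∉ P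
  let A : J → Finset I := fun j => ({j.1, c j.1} : Finset I) ∩ U
  have hU : ∀ i, i ∈ U ↔ c i ∉ P := fun i => by simp [U]
  -- the condition of Rado
  have hcond : ∀ Q : Finset J, Q.card ≤ rk k l (Q.biUnion A) := by
    intro Q
    set CQ : Finset I := Q.biUnion fun j => ({j.1, c j.1} : Finset I) with hCQ
    have hmem : ∀ i, i ∈ CQ ↔ rep i ∈ Q := by
      intro i
      rw [hCQ, Finset.mem_biUnion]
      constructor
      · rintro ⟨j, hj, hi⟩
        rw [hrepE] at hi
        rwa [hi]
      · intro hi
        exact ⟨rep i, hi, (hrepE _ _).mpr rfl⟩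
    have hcard : CQ.card = 2 * Q.card := by
      rw [hCQ, Finset.card_biUnion]
      · rw [Finset.sum_congr rfl (fun j _ => Finset.card_pair (hc' j.1).symm), Finset.sum_const,
          smul_eq_mul, mul_comm]
      · intro j _ j' _ hjj
        rw [Function.onFun, Finset.disjoint_left]
        intro i hi hi'
        rw [hrepE] at hi hi'
        exact hjj (hi.symm.trans hi')
    have hT : Q.biUnion A = CQ ∩ U := by
      ext i
      simp only [A, hCQ, Finset.mem_biUnion, Finset.mem_inter]
      constructor
      · rintro ⟨j, hj, hi, hi'⟩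
        exact ⟨⟨j, hj, hi⟩, hi'⟩
      · rintro ⟨⟨j, hj, hi⟩, hi'⟩
        exact ⟨j, hj, hi, hi'⟩
    rw [hT]
    set T := CQ ∩ U with hTdef
    have hd1 : (CQ \ U).card + T.card = 2 * Q.card := by
      rw [← hcard, hTdef]
      exact Finset.card_sdiff_add_card_inter _ _
    have hPf : P.Finite := Set.toFinite P
    have hsub : CQ \ U ⊆ hPf.toFinset.image c := by
      intro i hi
      rw [Finset.mem_sdiff, hU, not_not] at hi
      exact Finset.mem_image.mpr ⟨c i, hPf.mem_toFinset.mpr hi.2, hc i⟩
    have hPcard : (hPf.toFinset.image c).card ≤ 2 := by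
      refine Finset.card_image_le.trans ?_
      rwa [← Set.ncard_eq_toFinset_card P hPf]
    have hq : (CQ \ U).card ≤ 2 := (Finset.card_le_card hsub).trans hPcard
    have r1 := h1 T
    change T.card ≤ 2 * rk k l T at r1
    by_cases hq2 : (CQ \ U).card ≤ 1
    · omega
    · have hq3 : (CQ \ U).card = 2 := by omega
      have heq : CQ \ U = hPf.toFinset.image c :=
        Finset.eq_of_subset_of_card_le hsub (by omega)
      have hPT : ∀ i ∈ P, i ∈ T := by
        intro i hi
        have t1 : c i ∈ CQ \ U := by
          rw [heq]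
          exact Finset.mem_image.mpr ⟨i, hPf.mem_toFinset.mpr hi, rfl⟩
        rw [hTdef, Finset.mem_inter]
        refine ⟨?_, (hU i).mpr (hP i hi)⟩
        rw [hmem, ← hrep2, ← hmem]
        exact (Finset.mem_sdiff.mp t1).1
      have hCQle : CQ.card ≤ 2 * d := by
        rw [← hI]
        exact Finset.card_le_univ _
      by_cases hTd : T.card = d
      · by_cases htt : 2 * rk k l T = d
        · exfalso
          have hPeq : P = {i | i ∈ T ∧ c i ∉ T} := by
            ext i
            constructor
            · intro hi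
              refine ⟨hPT i hi, ?_⟩
              intro hi'
              rw [hTdef, Finset.mem_inter, hU, hc] at hi'
              exact hi'.2 hi
            · rintro ⟨hi, hi'⟩
              by_contra hiP
              apply hi'
              rw [hTdef, Finset.mem_inter, hU, hc]
              refine ⟨?_, hiP⟩
              rw [hmem, hrep2, ← hmem]
              exact (Finset.mem_inter.mp hi).1
          rcases hP₀' T hTd htt with h3 | h3
          · exact hne (hPeq.trans h3)
          · exact hne' (hPeq.trans h3)
        · omega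
      · have hT0 : 0 < T.card := by
          rw [Finset.card_pos]
          have t1 : (CQ \ U).Nonempty := by
            rw [← Finset.card_pos]
            omega
          obtain ⟨i, hi⟩ := t1
          rw [Finset.mem_sdiff, hU, not_not] at hi
          exact ⟨c i, hPT _ hi.2⟩
        have r2 := h2 T hT0 (by omega) hTd
        change T.card < 2 * rk k l T at r2
        omega
  obtain ⟨f, hf1, hf2⟩ := h k V I J l A hcond
  have hf3 : ∀ j, rep (f j) = j := fun j => (hrepE _ _).mp (Finset.mem_inter.mp (hf1 j)).1
  have hf4 : ∀ j, c (f j) ∉ P := fun j => (hU _).mp (Finset.mem_inter.mp (hf1 j)).2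
  have hf5 : ∀ i, f (rep i) = i ∨ f (rep i) = c i := by
    intro i
    have t1 := (Finset.mem_inter.mp (hf1 (rep i))).1
    rw [Finset.mem_insert, Finset.mem_singleton] at t1
    rcases hrep3 i with t2 | t2
    · rw [t2] at t1
      exact t1
    · rw [t2, hc] at t1
      exact t1.symm
  have hinj : Function.Injective f := fun j j' hjj => by rw [← hf3 j, hjj, hf3]
  refine ⟨Set.range f, ?_, ?_, ?_⟩
  · intro i hi
    rcases hf5 i with t1 | t1
    · exact ⟨_, t1⟩
    · exfalso
      apply hf4 (rep i)
      rw [t1, hc]
      exact hi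
  · intro i
    constructor
    · rintro ⟨j, rfl⟩ ⟨j', hj'⟩
      have t1 : j' = j := by rw [← hf3 j', hj', hrep2, hf3]
      rw [t1] at hj'
      exact hc' _ hj'.symm
    · intro hi
      rcases hf5 i with t1 | t1
      · exact ⟨_, t1⟩
      · exact absurd ⟨_, t1⟩ hi
  · have t1 := (linearIndependent_equiv (R := k) (Equiv.ofInjective f hinj)
      (f := fun i : Set.range f => l i)).mp (by
        refine Eq.mp ?_ hf2
        rfl)
    exact t1

end Pool.Agent.Helper77.SD
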